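import Pool.Agent.W2helper25.CK.Act

/-!
# A group acting on the interval acts on the circle
-/

set_option autoImplicit false

namespace Pool.Agent.W2helper25.CK

open Set Filter Topology WithLp OnePoint
open scoped Manifold Classical

noncomputable section

/-- the real function of a self-map of the interval -/
def ext (f : Icc (0 : ℝ) 1 → Icc (0 : ℝ) 1) (x : ℝ) : ℝ := (f (projIcc 0 1 zero_le_one x) : ℝ)

lemma ext_mem {f : Icc (0 : ℝ) 1 → Icc (0 : ℝ) 1} (x : ℝ) : ext f x ∈ Icc (0 : ℝ) 1 := (f _).2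

lemma ext_of {f : Icc (0 : ℝ) 1 → Icc (0 : ℝ) 1} {x : ℝ} (hx : x ∈ Icc (0 : ℝ) 1) :
    ext f x = f ⟨x, hx⟩ := by
  unfold ext
  rw [projIcc_of_mem zero_le_one hx]

lemma ext_comp (f g : Icc (0 : ℝ) 1 → Icc (0 : ℝ) 1) (x : ℝ) :
    ext f (ext g x) = ext (f ∘ g) x := by
  rw [ext_of (ext_mem x)]
  rfl

lemma contDiffOn_ext {f : Icc (0 : ℝ) 1 → Icc (0 : ℝ) 1} (hf : ContMDiff (𝓡∂ 1) (𝓡∂ 1) 1 f) :
    ContDiffOn ℝ 1 (ext f) (Icc 0 1) := by
  rw [← contMDiffOn_iff_contDiffOn]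
  have h1 : ContMDiff (𝓡∂ 1) 𝓘(ℝ, ℝ) 1 (fun z : Icc (0 : ℝ) 1 => ((f z : Icc (0 : ℝ) 1) : ℝ)) :=
    contMDiff_subtypeVal_Icc.comp hf
  exact contMDiffOn_comp_projIcc_iff.2 h1

lemma deriv_ne {f g : Icc (0 : ℝ) 1 → Icc (0 : ℝ) 1} (hf : ContMDiff (𝓡∂ 1) (𝓡∂ 1) 1 f)
    (hg : ContMDiff (𝓡∂ 1) (𝓡∂ 1) 1 g) (hgf : ∀ x, g (f x) = x) {x : ℝ}
    (hx : x ∈ Icc (0 : ℝ) 1) : derivWithin (ext f) (Icc 0 1) x ≠ 0 := by
  intro h0
  have h1 := hasD (contDiffOn_ext hf) hx
  have h2 := hasD (contDiffOn_ext hg) (ext_mem (f := f) x)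
  have h3 := HasDerivWithinAt.comp x h2 h1 (fun y _ => ext_mem y)
  rw [h0, mul_zero] at h3
  have h4 : HasDerivWithinAt (fun y : ℝ => y) 0 (Icc 0 1) x := by
    refine h3.congr (fun y hy => ?_) ?_
    · show y = ext g (ext f y)
      rw [ext_comp, ext_of hy]
      show y = ((g (f ⟨y, hy⟩) : Icc (0 : ℝ) 1) : ℝ)
      rw [hgf]
    · show x = ext g (ext f x)
      rw [ext_comp, ext_of hx]
      show x = ((g (f ⟨x, hx⟩) : Icc (0 : ℝ) 1) : ℝ)
      rw [hgf]
  have h5 := (h4.derivWithin (uniqueDiffOn_Icc zero_lt_one x hx)).symm.trans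
    ((hasDerivWithinAt_id x _).derivWithin (uniqueDiffOn_Icc zero_lt_one x hx))
  exact zero_ne_one h5

/-- a diffeomorphism of the interval is increasing or decreasing -/
lemma inc_or {f g : Icc (0 : ℝ) 1 → Icc (0 : ℝ) 1} (hf : ContMDiff (𝓡∂ 1) (𝓡∂ 1) 1 f)
    (hg : ContMDiff (𝓡∂ 1) (𝓡∂ 1) 1 g) (hgf : ∀ x, g (f x) = x) (hfg : ∀ x, f (g x) = x) :
    Inc (ext f) ∨ Inc (fun x => 1 - ext f x) := by
  have hs := contDiffOn_ext hf
  have hinj : InjOn (ext f) (Icc 0 1) := by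
    intro x hx y hy hxy
    rw [ext_of hx, ext_of hy] at hxy
    have h1 : f ⟨x, hx⟩ = f ⟨y, hy⟩ := Subtype.ext hxy
    have h2 := congrArg g h1
    rw [hgf, hgf] at h2
    exact congrArg Subtype.val h2
  have hsurj : ∀ y ∈ Icc (0 : ℝ) 1, ∃ x ∈ Icc (0 : ℝ) 1, ext f x = y := by
    intro y hy
    refine ⟨g ⟨y, hy⟩, (g ⟨y, hy⟩).2, ?_⟩
    rw [ext_of (g ⟨y, hy⟩).2]
    show ((f (g ⟨y, hy⟩) : Icc (0 : ℝ) 1) : ℝ) = y
    rw [hfg]
  have h0m : (0 : ℝ) ∈ Icc (0 : ℝ) 1 := ⟨le_rfl, zero_le_one⟩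
  have h1m : (1 : ℝ) ∈ Icc (0 : ℝ) 1 := ⟨zero_le_one, le_rfl⟩
  rcases hs.continuousOn.strictMonoOn_of_injOn_Icc' zero_le_one hinj with h | h
  · left
    have hz : ext f 0 = 0 := by
      obtain ⟨x, hx, hx2⟩ := hsurj 0 h0m
      have := h.monotoneOn h0m hx hx.1
      exact le_antisymm (this.trans hx2.le) (ext_mem 0).1
    have ho : ext f 1 = 1 := by
      obtain ⟨x, hx, hx2⟩ := hsurj 1 h1m
      have := h.monotoneOn hx h1m hx.2
      exact le_antisymm (ext_mem 1).2 (hx2.ge.trans this)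
    refine ⟨hs, hz, ho, fun x h0 h1 => ?_, deriv_ne hf hg hgf h0m, deriv_ne hf hg hgf h1m⟩
    have h2 := h h0m ⟨h0.le, h1.le⟩ h0
    have h3 := h ⟨h0.le, h1.le⟩ h1m h1
    rw [hz] at h2
    rw [ho] at h3
    exact ⟨h2, h3⟩
  · right
    have hz : ext f 0 = 1 := by
      obtain ⟨x, hx, hx2⟩ := hsurj 1 h1m
      have := h.antitoneOn h0m hx hx.1
      exact le_antisymm (ext_mem 0).2 (hx2.ge.trans this)
    have ho : ext f 1 = 0 := by
      obtain ⟨x, hx, hx2⟩ := hsurj 0 h0m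
      have := h.antitoneOn hx h1m hx.2
      exact le_antisymm (this.trans hx2.le) (ext_mem 1).1
    have hd : ∀ x ∈ Icc (0 : ℝ) 1, derivWithin (fun x => 1 - ext f x) (Icc 0 1) x ≠ 0 := by
      intro x hx
      rw [((hasD hs hx).const_sub 1).derivWithin (uniqueDiffOn_Icc zero_lt_one x hx)]
      exact neg_ne_zero.2 (deriv_ne hf hg hgf hx)
    refine ⟨contDiffOn_const.sub hs, by simp [hz], by simp [ho], fun x h0 h1 => ?_,
      hd 0 h0m, hd 1 h1m⟩
    have h2 := h h0m ⟨h0.le, h1.le⟩ h0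
    have h3 := h ⟨h0.le, h1.le⟩ h1m h1
    rw [hz] at h2
    rw [ho] at h3
    constructor <;> linarith

/-- the map of the line given by a self-map of the interval -/
def line (f : Icc (0 : ℝ) 1 → Icc (0 : ℝ) 1) : ℝ → ℝ := lift (ext f)

section

variable {f g : Icc (0 : ℝ) 1 → Icc (0 : ℝ) 1} (hf : ContMDiff (𝓡∂ 1) (𝓡∂ 1) 1 f)
    (hg : ContMDiff (𝓡∂ 1) (𝓡∂ 1) 1 g) (hgf : ∀ x, g (f x) = x) (hfg : ∀ x, f (g x) = x)

include hf hg hgf hfg

lemma good_line : Good (line f) := by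
  rcases inc_or hf hg hgf hfg with h | h
  · exact h.toEnd.good
  · have h1 := h.toEnd.good_neg
    have h2 : (fun t => - lift (fun x => 1 - ext f x) t) = line f := by
      funext t
      unfold line lift logit
      ring_nf
    rw [h2] at h1
    exact h1

lemma ext_interior {x : ℝ} (h0 : 0 < x) (h1 : x < 1) : 0 < ext f x ∧ ext f x < 1 := by
  rcases inc_or hf hg hgf hfg with h | h
  · exact h.maps x h0 h1
  · have := h.maps x h0 h1
    constructor <;> linarith [this.1, this.2]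

lemma sig_line (t : ℝ) : Real.sigmoid (line f t) = ext f (Real.sigmoid t) := by
  have h := ext_interior hf hg hgf hfg (Real.sigmoid_pos t) (Real.sigmoid_lt_one t)
  exact sigmoid_logit h.1 h.2

lemma eq_id_of_line (h : ∀ t, line f t = t) : f = id := by
  have h1 : ∀ x, 0 < x → x < 1 → ext f x = x := by
    intro x h0 h1
    have h2 := sig_line hf hg hgf hfg (logit x)
    rw [h, sigmoid_logit h0 h1] at h2
    exact h2.symm
  have h2 : Inc (ext f) := by
    rcases inc_or hf hg hgf hfg with h3 | h3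
    · exact h3
    · exfalso
      have h4 : StrictMonoOn (ext f) (Icc 0 1) ∨ StrictAntiOn (ext f) (Icc 0 1) := by
        apply (contDiffOn_ext hf).continuousOn.strictMonoOn_of_injOn_Icc' zero_le_one
        intro x hx y hy hxy
        rw [ext_of hx, ext_of hy] at hxy
        have h1 : f ⟨x, hx⟩ = f ⟨y, hy⟩ := Subtype.ext hxy
        have h2 := congrArg g h1
        rw [hgf, hgf] at h2
        exact congrArg Subtype.val h2
      have h5 := h3.zero
      have h6 := h3.one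
      have h7 : ext f 0 = 1 := by linarith
      have h8 : ext f 1 = 0 := by linarith
      have h9 := h1 (1 / 4) (by norm_num) (by norm_num)
      have h10 := h1 (1 / 2) (by norm_num) (by norm_num)
      rcases h4 with h4 | h4
      · have := h4 (a := 0) (b := 1) ⟨le_rfl, zero_le_one⟩ ⟨zero_le_one, le_rfl⟩ zero_lt_one
        rw [h7, h8] at this
        linarith
      · have := h4 (a := 1 / 4) (b := 1 / 2) ⟨by norm_num, by norm_num⟩
          ⟨by norm_num, by norm_num⟩ (by norm_num)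
        rw [h9, h10] at this
        linarith
  funext x
  apply Subtype.ext
  rw [id]
  have h3 := ext_of (f := f) x.2
  rw [Subtype.coe_eta] at h3
  rw [← h3]
  rcases eq_or_lt_of_le x.2.1 with h0 | h0
  · rw [← h0, h2.zero]
  · rcases eq_or_lt_of_le x.2.2 with h4 | h4
    · rw [h4, h2.one]
    · exact h1 _ h0 h4

end

lemma line_id : line id = id := by
  funext t
  show logit (ext id (Real.sigmoid t)) = t
  rw [ext_of ⟨(Real.sigmoid_pos t).le, (Real.sigmoid_lt_one t).le⟩]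
  exact logit_sigmoid t

/-- A group acting on the interval by `C^1` diffeomorphisms acts on the circle in this way. -/
theorem exists_action {G : Type*} [Group G] (ρ : G →* Equiv.Perm (Icc (0 : ℝ) 1))
    (hinj : Function.Injective ρ) (hρ : ∀ g, ContMDiff (𝓡∂ 1) (𝓡∂ 1) 1 (ρ g)) :
    ∃ ρ' : G →* Equiv.Perm (OnePoint ℝ), Function.Injective ρ' ∧
      ∀ g, ContMDiff (𝓡∂ 1) (𝓡∂ 1) 1 (ρ' g) := by
  have e1 : ∀ g x, ρ g⁻¹ (ρ g x) = x := fun g x => by
    rw [← Equiv.Perm.mul_apply, ← map_mul, inv_mul_cancel, map_one]; rfl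
  have e2 : ∀ g x, ρ g (ρ g⁻¹ x) = x := fun g x => by
    rw [← Equiv.Perm.mul_apply, ← map_mul, mul_inv_cancel, map_one]; rfl
  have hmul : ∀ g h t, line (ρ (g * h)) t = line (ρ g) (line (ρ h) t) := by
    intro g h t
    apply Real.sigmoid_injective
    rw [sig_line (hρ _) (hρ _) (e1 _) (e2 _), sig_line (hρ _) (hρ _) (e1 _) (e2 _),
      sig_line (hρ _) (hρ _) (e1 _) (e2 _), ext_comp, map_mul]
    rfl
  have hone : ∀ t, line (ρ 1) t = t := by
    intro t
    rw [map_one]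
    exact congrFun line_id t
  let act : G → OnePoint ℝ → OnePoint ℝ := fun g => OnePoint.map (line (ρ g))
  have hact1 : act 1 = id := by
    show OnePoint.map (line (ρ 1)) = id
    rw [funext hone]
    exact map_id
  have hactm : ∀ g h, act (g * h) = act g ∘ act h := by
    intro g h
    show OnePoint.map (line (ρ (g * h))) = OnePoint.map (line (ρ g)) ∘ OnePoint.map (line (ρ h))
    rw [← OnePoint.map_comp]
    congr 1
    exact funext (hmul g h)
  let ρ' : G →* Equiv.Perm (OnePoint ℝ) :=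
    { toFun := fun g =>
        { toFun := act g
          invFun := act g⁻¹
          left_inv := fun x => by
            rw [← Function.comp_apply (f := act g⁻¹), ← hactm, inv_mul_cancel, hact1]; rfl
          right_inv := fun x => by
            rw [← Function.comp_apply (f := act g), ← hactm, mul_inv_cancel, hact1]; rfl }
      map_one' := by
        ext x
        show act 1 x = x
        rw [hact1]; rfl
      map_mul' := fun g h => by
        ext x
        show act (g * h) x = act g (act h x)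
        rw [hactm]; rfl }
  refine ⟨ρ', ?_, fun g => (good_line (hρ g) (hρ g⁻¹) (e1 g) (e2 g)).contMDiff⟩
  rw [injective_iff_map_eq_one]
  intro g hg
  apply hinj
  rw [map_one]
  have h1 : ∀ t, line (ρ g) t = t := by
    intro t
    have h2 : act g (t : OnePoint ℝ) = (t : OnePoint ℝ) := congrArg (fun σ => σ (t : OnePoint ℝ)) hg
    exact OnePoint.coe_injective h2
  have h2 := eq_id_of_line (hρ g) (hρ g⁻¹) (e1 g) (e2 g) h1
  ext x
  rw [h2]; rfl

/-- The interval is not homeomorphic to the circle. -/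
theorem no_homeo : IsEmpty (Icc (0 : ℝ) 1 ≃ₜ OnePoint ℝ) := by
  constructor
  intro h
  -- the point which goes to infinity is an end
  set q : Icc (0 : ℝ) 1 := h.symm ∞ with hq
  have hhq : h q = ∞ := h.apply_symm_apply ∞
  have h1 : IsPreconnected ({q}ᶜ : Set (Icc (0 : ℝ) 1)) := by
    have h2 : IsPreconnected (range ((↑) : ℝ → OnePoint ℝ)) := isPreconnected_range continuous_coe
    have h3 := h2.image h.symm h.symm.continuous.continuousOn
    convert h3 using 1
    rw [← compl_infty, image_compl_eq h.symm.bijective, image_singleton]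
  have hend : (q : ℝ) = 0 ∨ (q : ℝ) = 1 := by
    by_contra hcon
    push Not at hcon
    have h2 := h1.image (fun x : Icc (0 : ℝ) 1 => (x : ℝ)) continuous_subtype_val.continuousOn
    have h3 : (0 : ℝ) ∈ (fun x : Icc (0 : ℝ) 1 => (x : ℝ)) '' {q}ᶜ :=
      ⟨⟨0, le_rfl, zero_le_one⟩, fun h => hcon.1 (by rw [← h]), rfl⟩
    have h4 : (1 : ℝ) ∈ (fun x : Icc (0 : ℝ) 1 => (x : ℝ)) '' {q}ᶜ :=
      ⟨⟨1, zero_le_one, le_rfl⟩, fun h => hcon.2 (by rw [← h]), rfl⟩
    obtain ⟨y, hy, hy2⟩ := h2.ordConnected.out h3 h4 q.2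
    exact hy (Subtype.ext hy2)
  -- the other end
  obtain ⟨q', hq', hS⟩ : ∃ q' : Icc (0 : ℝ) 1, q' ≠ q ∧
      IsPreconnected ({q, q'}ᶜ : Set (Icc (0 : ℝ) 1)) := by
    have hI : IsPreconnected ((fun x : Icc (0 : ℝ) 1 => (x : ℝ)) ⁻¹' Ioo 0 1) := by
      have h2 : ((fun x : Icc (0 : ℝ) 1 => (x : ℝ)) '' ((fun x : Icc (0 : ℝ) 1 => (x : ℝ)) ⁻¹'
          Ioo 0 1)) = Ioo 0 1 := by
        ext x
        constructor
        · rintro ⟨y, hy, rfl⟩; exact hy
        · intro hx; exact ⟨⟨x, hx.1.le, hx.2.le⟩, hx, rfl⟩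
      have h3 : IsPreconnected ((fun x : Icc (0 : ℝ) 1 => (x : ℝ)) ''
          ((fun x : Icc (0 : ℝ) 1 => (x : ℝ)) ⁻¹' Ioo 0 1)) := by
        rw [h2]; exact isPreconnected_Ioo
      exact Topology.IsInducing.subtypeVal.isPreconnected_image.1 h3
    rcases hend with h0 | h0
    · refine ⟨⟨1, zero_le_one, le_rfl⟩, fun h2 => ?_, ?_⟩
      · rw [← h2] at h0; exact one_ne_zero h0
      · convert hI using 1
        ext x
        simp only [mem_compl_iff, mem_insert_iff, mem_singleton_iff, mem_preimage, mem_Ioo, not_or]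
        constructor
        · rintro ⟨ha, hb⟩
          exact ⟨lt_of_le_of_ne x.2.1 fun h3 => ha (Subtype.ext (h3.symm.trans h0.symm)),
            lt_of_le_of_ne x.2.2 fun h3 => hb (Subtype.ext h3)⟩
        · rintro ⟨ha, hb⟩
          exact ⟨fun h3 => ha.ne' (by rw [h3, h0]), fun h3 => hb.ne (by rw [h3])⟩
    · refine ⟨⟨0, le_rfl, zero_le_one⟩, fun h2 => ?_, ?_⟩
      · rw [← h2] at h0; exact zero_ne_one h0
      · convert hI using 1
        ext x
        simp only [mem_compl_iff, mem_insert_iff, mem_singleton_iff, mem_preimage, mem_Ioo, not_or]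
        constructor
        · rintro ⟨ha, hb⟩
          exact ⟨lt_of_le_of_ne x.2.1 fun h3 => hb (Subtype.ext h3.symm),
            lt_of_le_of_ne x.2.2 fun h3 => ha (Subtype.ext (h3.trans h0.symm))⟩
        · rintro ⟨ha, hb⟩
          exact ⟨fun h3 => hb.ne (by rw [h3, h0]), fun h3 => ha.ne' (by rw [h3])⟩
  obtain ⟨y, hy⟩ : ∃ y : ℝ, (y : OnePoint ℝ) = h q' := by
    rw [← ne_infty_iff_exists, ← hhq]
    exact fun h2 => hq' (h.injective h2)
  have h2 : IsPreconnected ({y}ᶜ : Set ℝ) := by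
    have h3 := hS.image h h.continuous.continuousOn
    rw [image_compl_eq h.bijective, image_pair, hhq, ← hy] at h3
    have h4 : ({∞, (y : OnePoint ℝ)}ᶜ : Set (OnePoint ℝ)) = ((↑) : ℝ → OnePoint ℝ) '' {y}ᶜ := by
      ext x
      induction x using OnePoint.rec with
      | infty => simp
      | coe x => simp
    rw [h4] at h3
    exact (isOpenEmbedding_coe (X := ℝ)).isInducing.isPreconnected_image.1 h3
  have h3 : (y - 1) ∈ ({y}ᶜ : Set ℝ) := by
    rw [mem_compl_singleton_iff]; linarith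
  have h4 : (y + 1) ∈ ({y}ᶜ : Set ℝ) := by
    rw [mem_compl_singleton_iff]; linarith
  exact h2.ordConnected.out h3 h4 (show y ∈ Icc (y - 1) (y + 1) from ⟨by linarith, by linarith⟩) rfl

end

end Pool.Agent.W2helper25.CK
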