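import Pool.Agent.W2helper25.CK.Geo

/-!
# Actions on the interval extend to actions on the circle
-/

set_option autoImplicit false

namespace Pool.Agent.W2helper25.CK

open Set Filter Topology WithLp OnePoint
open scoped Manifold Classical

noncomputable section

/-- maps of the line which extend to `C^1` maps of the circle fixing infinity -/
structure Good (H : ℝ → ℝ) : Prop where
  smooth : ContDiff ℝ 1 H
  atInf : ContDiffAt ℝ 1 (inf H) 0
  cont : Continuous (OnePoint.map H)

variable {H HD : ℝ → ℝ}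

lemma End.contDiff (h : End H HD) : ContDiff ℝ 1 H := by
  rw [contDiff_one_iff_deriv]
  refine ⟨fun t => (h.der t).differentiableAt, ?_⟩
  have : deriv H = HD := funext fun t => (h.der t).deriv
  rw [this]
  exact h.cont

lemma End.tendsto_top (h : End H HD) : Tendsto H atTop atTop := by
  obtain ⟨c, hc⟩ := h.sub_top
  have h1 := hc.add_atTop tendsto_id
  exact h1.congr fun t => by simp

lemma End.tendsto_bot (h : End H HD) : Tendsto H atBot atBot := by
  obtain ⟨c, hc⟩ := h.sub_bot
  have h1 := hc.add_atBot tendsto_id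
  exact h1.congr fun t => by simp

lemma End.good (h : End H HD) : Good H where
  smooth := h.contDiff
  atInf := h.contDiffAt
  cont := by
    apply OnePoint.continuous_map h.contDiff.continuous
    rw [coclosedCompact_eq_cocompact, cocompact_eq_atBot_atTop]
    exact h.tendsto_bot.sup_sup h.tendsto_top

lemma End.good_neg (h : End H HD) : Good (fun t => - H t) where
  smooth := h.contDiff.neg
  atInf := by
    have h1 : inf (fun t => - H t) = fun s => - inf H s := by
      funext s
      unfold inf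
      by_cases hs : s = 0
      · simp [hs]
      · simp [hs, inv_neg]
    rw [h1]
    exact h.contDiffAt.neg
  cont := by
    apply OnePoint.continuous_map h.contDiff.continuous.neg
    rw [coclosedCompact_eq_cocompact, cocompact_eq_atBot_atTop, sup_comm]
    have h1 := (tendsto_neg_atBot_atTop.comp h.tendsto_bot).sup_sup
      (tendsto_neg_atTop_atBot.comp h.tendsto_top)
    rw [sup_comm] at h1
    exact h1

lemma P_coord (x : ℝ) : ((P x).1 : EuclideanSpace ℝ (Fin 1)) 0 = Real.exp x := rfl

lemma Good.contMDiff (h : Good H) :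
    ContMDiff (𝓡∂ 1) (𝓡∂ 1) 1 (OnePoint.map H : OnePoint ℝ → OnePoint ℝ) := by
  intro x
  rw [contMDiffAt_iff]
  refine ⟨h.cont.continuousAt, ?_⟩
  induction x using OnePoint.rec with
  | infty =>
    have hx : (extChartAt (𝓡∂ 1) (∞ : OnePoint ℝ)) ∞ = toLp 2 fun _ => (1 : ℝ) := by
      rw [extChartAt, OpenPartialHomeomorph.extend_coe, chartAt_infty]
      show (𝓡∂ 1) (B ∞) = _
      rw [B_apply, invFun_infty, A_coe]
      show ((P 0).1 : EuclideanSpace ℝ (Fin 1)) = _
      rw [P_val, Real.exp_zero]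
    have hx0 : ((extChartAt (𝓡∂ 1) (∞ : OnePoint ℝ)) ∞ : EuclideanSpace ℝ (Fin 1)) 0 = 1 := by
      rw [hx]
    have h1 : ContDiffAt ℝ 1 (R (inf H)) (extChartAt (𝓡∂ 1) (∞ : OnePoint ℝ) ∞) := by
      apply contDiffAt_R
      · rw [hx0]; exact one_pos
      · rw [hx0, Real.log_one]; exact h.atInf
    refine h1.contDiffWithinAt.congr_of_eventuallyEq_of_mem ?_ (mem_range_self _)
    -- near infinity the map `H` does not vanish
    have h2 : ∀ᶠ y in 𝓝 (extChartAt (𝓡∂ 1) (∞ : OnePoint ℝ) ∞ : EuclideanSpace ℝ (Fin 1)),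
        0 < y 0 ∧ (Real.log (y 0) = 0 ∨ H (Real.log (y 0))⁻¹ ≠ 0) := by
      have hc : ContinuousAt (fun y : EuclideanSpace ℝ (Fin 1) => y 0)
          (extChartAt (𝓡∂ 1) (∞ : OnePoint ℝ) ∞) :=
        (@PiLp.continuous_apply 2 (Fin 1) (fun _ => ℝ) _ 0).continuousAt
      have hc1 : Tendsto (fun y : EuclideanSpace ℝ (Fin 1) => Real.log (y 0))
          (𝓝 (extChartAt (𝓡∂ 1) (∞ : OnePoint ℝ) ∞)) (𝓝 0) := by
        have := hc.log (by rw [hx0]; exact one_ne_zero)
        have h3 := this.tendsto
        rw [hx0, Real.log_one] at h3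
        exact h3
      have hpos : ∀ᶠ y in 𝓝 (extChartAt (𝓡∂ 1) (∞ : OnePoint ℝ) ∞ : EuclideanSpace ℝ (Fin 1)),
          0 < y 0 := by
        apply hc.tendsto.eventually_const_lt
        rw [hx0]; exact one_pos
      have hne : ∀ᶠ s in 𝓝 (0 : ℝ), s = 0 ∨ H s⁻¹ ≠ 0 := by
        have h4 : (OnePoint.map H) ⁻¹' {((0 : ℝ) : OnePoint ℝ)}ᶜ ∈ 𝓝 (∞ : OnePoint ℝ) := by
          apply h.cont.continuousAt.preimage_mem_nhds
          rw [map_infty]
          exact isOpen_compl_singleton.mem_nhds (infty_ne_coe 0)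
        have h5 : invFun ⁻¹' ((OnePoint.map H) ⁻¹' {((0 : ℝ) : OnePoint ℝ)}ᶜ) ∈
            𝓝 ((0 : ℝ) : OnePoint ℝ) := by
          apply continuous_invFun.continuousAt.preimage_mem_nhds
          rw [invFun_zero]
          exact h4
        have h6 := (continuous_coe (X := ℝ)).continuousAt.preimage_mem_nhds h5
        filter_upwards [h6] with s hs
        by_cases h0 : s = 0
        · exact Or.inl h0
        · right
          intro h7
          apply hs
          rw [mem_singleton_iff, invFun_coe h0, map_some, h7]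
      filter_upwards [hpos, hc1.eventually hne] with y hy1 hy2
      exact ⟨hy1, hy2⟩
    filter_upwards [nhdsWithin_le_nhds h2] with y hy
    obtain ⟨hy0, hy1⟩ := hy
    show (extChartAt (𝓡∂ 1) (OnePoint.map H ∞)) (OnePoint.map H
      ((extChartAt (𝓡∂ 1) (∞ : OnePoint ℝ)).symm y)) = _
    rw [map_infty, extChartAt, OpenPartialHomeomorph.extend_coe,
      OpenPartialHomeomorph.extend_coe_symm, chartAt_infty]
    show (𝓡∂ 1) (B (OnePoint.map H (B.symm ((𝓡∂ 1).symm y)))) = _
    rw [B_symm, symm_coe hy0.le, B_apply]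
    by_cases h0 : Real.log (y 0) = 0
    · rw [h0, invFun_zero, map_infty, invFun_infty, A_coe]
      unfold R inf
      rw [h0, if_pos rfl]
      rfl
    · rw [invFun_coe h0, map_some, invFun_coe (hy1.resolve_left h0), A_coe]
      unfold R inf
      rw [if_neg h0]
      rfl
  | coe x =>
    have hx : (extChartAt (𝓡∂ 1) (x : OnePoint ℝ)) x = toLp 2 fun _ => Real.exp x := by
      rw [extChartAt, OpenPartialHomeomorph.extend_coe, chartAt_coe]
      show (𝓡∂ 1) (A x) = _
      rw [A_coe]
      exact P_val x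
    have hx0 : ((extChartAt (𝓡∂ 1) (x : OnePoint ℝ)) x : EuclideanSpace ℝ (Fin 1)) 0 =
        Real.exp x := by
      rw [hx]
    have h1 : ContDiffAt ℝ 1 (R H) (extChartAt (𝓡∂ 1) (x : OnePoint ℝ) x) := by
      apply contDiffAt_R
      · rw [hx0]; exact Real.exp_pos x
      · exact h.smooth.contDiffAt
    refine h1.contDiffWithinAt.congr_of_mem ?_ (mem_range_self _)
    intro y hy
    rw [mem_range_iff] at hy
    show (extChartAt (𝓡∂ 1) (OnePoint.map H x)) (OnePoint.map H
      ((extChartAt (𝓡∂ 1) (x : OnePoint ℝ)).symm y)) = _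
    rw [map_some, extChartAt, extChartAt, OpenPartialHomeomorph.extend_coe,
      OpenPartialHomeomorph.extend_coe_symm, chartAt_coe, chartAt_coe]
    show (𝓡∂ 1) (A (OnePoint.map H (A.symm ((𝓡∂ 1).symm y)))) = _
    rw [A_symm, symm_coe hy, map_some, A_coe]
    rfl

end

end Pool.Agent.W2helper25.CK
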