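import Mathlib

/-!
# A `C^1` diffeomorphism of the interval in the logistic coordinate

If `F` is an increasing `C^1` diffeomorphism of `[0,1]`, then `H = logit ∘ F ∘ sigmoid` is a `C^1`
diffeomorphism of the line which extends to a `C^1` diffeomorphism of the circle `ℝ ∪ {∞}`.
-/

set_option autoImplicit false

namespace Pool.Agent.W2helper25.CK

open Set Filter Topology

noncomputable section

/-- the inverse of the sigmoid function -/
def logit (x : ℝ) : ℝ := Real.log x - Real.log (1 - x)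

lemma logit_sigmoid (t : ℝ) : logit (Real.sigmoid t) = t := by
  have h1 := Real.sigmoid_pos t
  have h2 := Real.sigmoid_lt_one t
  have h3 : 1 - Real.sigmoid t = Real.sigmoid t * Real.exp (-t) := by
    rw [Real.sigmoid_mul_rexp_neg, Real.sigmoid_neg]
  unfold logit
  rw [h3, Real.log_mul h1.ne' (Real.exp_pos _).ne', Real.log_exp]
  ring

lemma sigmoid_logit {x : ℝ} (h0 : 0 < x) (h1 : x < 1) : Real.sigmoid (logit x) = x := by
  have h2 : x ∈ range Real.sigmoid := by
    rw [Real.range_sigmoid]; exact ⟨h0, h1⟩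
  obtain ⟨t, rfl⟩ := h2
  rw [logit_sigmoid]

lemma hasDerivAt_logit {x : ℝ} (h0 : 0 < x) (h1 : x < 1) :
    HasDerivAt logit (1 / (x * (1 - x))) x := by
  have h2 : HasDerivAt (fun y : ℝ => Real.log y) (x⁻¹) x := Real.hasDerivAt_log h0.ne'
  have h3 : HasDerivAt (fun y : ℝ => Real.log (1 - y)) (-1 / (1 - x)) x := by
    have h4 : HasDerivAt (fun y : ℝ => 1 - y) (-1) x := by
      simpa using (hasDerivAt_id x).const_sub 1
    exact h4.log (by linarith)
  have h5 := h2.sub h3
  have h6 : x⁻¹ - -1 / (1 - x) = 1 / (x * (1 - x)) := by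
    have : 1 - x ≠ 0 := by linarith
    field_simp
    ring
  rw [h6] at h5
  exact h5

/-- increasing `C^1` maps of the interval with non-zero derivatives at the ends -/
structure Inc (F : ℝ → ℝ) : Prop where
  smooth : ContDiffOn ℝ 1 F (Icc 0 1)
  zero : F 0 = 0
  one : F 1 = 1
  maps : ∀ x, 0 < x → x < 1 → 0 < F x ∧ F x < 1
  d0 : derivWithin F (Icc 0 1) 0 ≠ 0
  d1 : derivWithin F (Icc 0 1) 1 ≠ 0

/-- the map in the logistic coordinate -/
def lift (F : ℝ → ℝ) (t : ℝ) : ℝ := logit (F (Real.sigmoid t))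

/-- its derivative -/
def liftD (F : ℝ → ℝ) (t : ℝ) : ℝ :=
  1 / (F (Real.sigmoid t) * (1 - F (Real.sigmoid t))) *
    (derivWithin F (Icc 0 1) (Real.sigmoid t) * (Real.sigmoid t * (1 - Real.sigmoid t)))

variable {F : ℝ → ℝ}

lemma contD (h : ContDiffOn ℝ 1 F (Icc 0 1)) : ContinuousOn (derivWithin F (Icc 0 1)) (Icc 0 1) :=
  h.continuousOn_derivWithin (uniqueDiffOn_Icc zero_lt_one) le_rfl

lemma hasD (h : ContDiffOn ℝ 1 F (Icc 0 1)) {x : ℝ} (hx : x ∈ Icc (0 : ℝ) 1) :
    HasDerivWithinAt F (derivWithin F (Icc 0 1) x) (Icc 0 1) x :=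
  ((h.differentiableOn one_ne_zero) x hx).hasDerivWithinAt

lemma hasDerivAt_lift (h : ContDiffOn ℝ 1 F (Icc 0 1))
    (hm : ∀ x, 0 < x → x < 1 → 0 < F x ∧ F x < 1) (t : ℝ) :
    HasDerivAt (lift F) (liftD F t) t := by
  have h0 := Real.sigmoid_pos t
  have h1 := Real.sigmoid_lt_one t
  have hF : HasDerivAt F (derivWithin F (Icc 0 1) (Real.sigmoid t)) (Real.sigmoid t) :=
    (hasD h ⟨h0.le, h1.le⟩).hasDerivAt (Icc_mem_nhds h0 h1)
  have h2 := (hF.comp t (Real.hasDerivAt_sigmoid t))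
  have h3 := hasDerivAt_logit (hm _ h0 h1).1 (hm _ h0 h1).2
  exact h3.comp t h2

lemma continuous_liftD (h : ContDiffOn ℝ 1 F (Icc 0 1))
    (hm : ∀ x, 0 < x → x < 1 → 0 < F x ∧ F x < 1) : Continuous (liftD F) := by
  have hs : ∀ t, Real.sigmoid t ∈ Icc (0 : ℝ) 1 := fun t =>
    ⟨(Real.sigmoid_pos t).le, (Real.sigmoid_lt_one t).le⟩
  have h1 : Continuous (fun t => F (Real.sigmoid t)) :=
    h.continuousOn.comp_continuous continuous_sigmoid hs
  have h2 : Continuous (fun t => derivWithin F (Icc 0 1) (Real.sigmoid t)) :=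
    (contD h).comp_continuous continuous_sigmoid hs
  have h3 : Continuous Real.sigmoid := continuous_sigmoid
  have h4 : ∀ t, F (Real.sigmoid t) * (1 - F (Real.sigmoid t)) ≠ 0 := fun t => by
    have := hm _ (Real.sigmoid_pos t) (Real.sigmoid_lt_one t)
    exact (mul_pos this.1 (by linarith [this.2])).ne'
  unfold liftD
  exact (continuous_const.div (h1.mul (continuous_const.sub h1)) h4).mul
    (h2.mul (h3.mul (continuous_const.sub h3)))

lemma tendsto_sig_one : Tendsto Real.sigmoid atTop (𝓝[Iio 1] 1) :=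
  tendsto_nhdsWithin_iff.2 ⟨Real.tendsto_sigmoid_atTop,
    Eventually.of_forall fun t => Real.sigmoid_lt_one t⟩

/-- `(1 - F x) / (1 - x)` tends to the derivative at `1` -/
lemma tendsto_q (h : ContDiffOn ℝ 1 F (Icc 0 1)) (h1 : F 1 = 1) :
    Tendsto (fun t => (1 - F (Real.sigmoid t)) / (1 - Real.sigmoid t)) atTop
      (𝓝 (derivWithin F (Icc 0 1) 1)) := by
  have h2 := hasD h (x := 1) ⟨zero_le_one, le_rfl⟩
  rw [hasDerivWithinAt_iff_tendsto_slope] at h2
  have h3 : Tendsto Real.sigmoid atTop (𝓝[Icc 0 1 \ {1}] 1) := by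
    apply tendsto_nhdsWithin_iff.2 ⟨Real.tendsto_sigmoid_atTop, Eventually.of_forall fun t => ?_⟩
    exact ⟨⟨(Real.sigmoid_pos t).le, (Real.sigmoid_lt_one t).le⟩, (Real.sigmoid_lt_one t).ne⟩
  refine (h2.comp h3).congr fun t => ?_
  have h4 : 1 - Real.sigmoid t ≠ 0 := by linarith [Real.sigmoid_lt_one t]
  have h5 : Real.sigmoid t - 1 ≠ 0 := by linarith [Real.sigmoid_lt_one t]
  simp only [Function.comp, slope, h1, vsub_eq_sub, smul_eq_mul]
  field_simp
  ring

lemma tendsto_F (h : ContDiffOn ℝ 1 F (Icc 0 1)) (h1 : F 1 = 1) :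
    Tendsto (fun t => F (Real.sigmoid t)) atTop (𝓝 1) := by
  have h2 := h.continuousOn 1 ⟨zero_le_one, le_rfl⟩
  have h3 : Tendsto Real.sigmoid atTop (𝓝[Icc 0 1] 1) := by
    apply tendsto_nhdsWithin_iff.2 ⟨Real.tendsto_sigmoid_atTop, Eventually.of_forall fun t => ?_⟩
    exact ⟨(Real.sigmoid_pos t).le, (Real.sigmoid_lt_one t).le⟩
  have := h2.tendsto.comp h3
  rw [h1] at this
  exact this

lemma tendsto_D (h : ContDiffOn ℝ 1 F (Icc 0 1)) :
    Tendsto (fun t => derivWithin F (Icc 0 1) (Real.sigmoid t)) atTop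
      (𝓝 (derivWithin F (Icc 0 1) 1)) := by
  have h2 := contD h 1 ⟨zero_le_one, le_rfl⟩
  have h3 : Tendsto Real.sigmoid atTop (𝓝[Icc 0 1] 1) := by
    apply tendsto_nhdsWithin_iff.2 ⟨Real.tendsto_sigmoid_atTop, Eventually.of_forall fun t => ?_⟩
    exact ⟨(Real.sigmoid_pos t).le, (Real.sigmoid_lt_one t).le⟩
  exact h2.tendsto.comp h3

lemma Inc.tendsto_liftD (h : Inc F) : Tendsto (liftD F) atTop (𝓝 1) := by
  have hq := tendsto_q h.smooth h.one
  have hF := tendsto_F h.smooth h.one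
  have hD := tendsto_D h.smooth
  have hs := Real.tendsto_sigmoid_atTop
  have h1 : Tendsto (fun t => (derivWithin F (Icc 0 1) (Real.sigmoid t) * Real.sigmoid t) /
      (F (Real.sigmoid t) * ((1 - F (Real.sigmoid t)) / (1 - Real.sigmoid t)))) atTop
      (𝓝 ((derivWithin F (Icc 0 1) 1 * 1) / (1 * derivWithin F (Icc 0 1) 1))) :=
    (hD.mul hs).div (hF.mul hq) (by rw [one_mul]; exact h.d1)
  have h2 : (derivWithin F (Icc 0 1) 1 * 1) / (1 * derivWithin F (Icc 0 1) 1) = 1 := by
    rw [mul_one, one_mul, div_self h.d1]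
  rw [h2] at h1
  refine h1.congr fun t => ?_
  unfold liftD
  have h3 := h.maps _ (Real.sigmoid_pos t) (Real.sigmoid_lt_one t)
  have h4 : 1 - Real.sigmoid t ≠ 0 := by linarith [Real.sigmoid_lt_one t]
  have h5 : 1 - F (Real.sigmoid t) ≠ 0 := by linarith
  have h6 := h3.1.ne'
  field_simp

lemma Inc.tendsto_lift_sub (h : Inc F) : ∃ c, Tendsto (fun t => lift F t - t) atTop (𝓝 c) := by
  have hq := tendsto_q h.smooth h.one
  have hF := tendsto_F h.smooth h.one
  have hs := Real.tendsto_sigmoid_atTop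
  have h1 := (hF.log one_ne_zero).sub (hs.log one_ne_zero)
  have h2 := h1.sub (hq.log h.d1)
  refine ⟨_, h2.congr fun t => ?_⟩
  have h3 := h.maps _ (Real.sigmoid_pos t) (Real.sigmoid_lt_one t)
  have h4 : 1 - Real.sigmoid t ≠ 0 := by linarith [Real.sigmoid_lt_one t]
  have h5 : 1 - F (Real.sigmoid t) ≠ 0 := by linarith
  have h6 : t = Real.log (Real.sigmoid t) - Real.log (1 - Real.sigmoid t) :=
    (logit_sigmoid t).symm
  rw [Real.log_div h5 h4]
  unfold lift logit
  linarith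

lemma sig_sub (t : ℝ) : 1 - Real.sigmoid t = Real.sigmoid (-t) := (Real.sigmoid_neg t).symm

/-- conjugation by the reflection -/
def rfl' (F : ℝ → ℝ) (x : ℝ) : ℝ := 1 - F (1 - x)

lemma derivWithin_rfl' (h : ContDiffOn ℝ 1 F (Icc 0 1)) {x : ℝ} (hx : x ∈ Icc (0 : ℝ) 1) :
    derivWithin (rfl' F) (Icc 0 1) x = derivWithin F (Icc 0 1) (1 - x) := by
  have h1 : HasDerivWithinAt (rfl' F) (derivWithin F (Icc 0 1) (1 - x)) (Icc 0 1) x := by
    have hx' : 1 - x ∈ Icc (0 : ℝ) 1 := ⟨by linarith [hx.2], by linarith [hx.1]⟩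
    have h2 := hasD h hx'
    have h3 : HasDerivWithinAt (fun y : ℝ => 1 - y) (-1) (Icc 0 1) x := by
      simpa using ((hasDerivAt_id x).const_sub 1).hasDerivWithinAt
    have h4 : MapsTo (fun y : ℝ => 1 - y) (Icc 0 1) (Icc 0 1) := fun y hy =>
      ⟨by linarith [hy.2], by linarith [hy.1]⟩
    have h5 := (HasDerivWithinAt.comp x h2 h3 h4).const_sub 1
    have h6 : -(derivWithin F (Icc 0 1) (1 - x) * -1) = derivWithin F (Icc 0 1) (1 - x) := by ring
    rw [h6] at h5
    exact h5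
  exact h1.derivWithin (uniqueDiffOn_Icc zero_lt_one x hx)

lemma Inc.rfl (h : Inc F) : Inc (rfl' F) where
  smooth := by
    have h4 : MapsTo (fun y : ℝ => 1 - y) (Icc 0 1) (Icc 0 1) := fun y hy =>
      ⟨by linarith [hy.2], by linarith [hy.1]⟩
    have h5 : ContDiffOn ℝ 1 (fun y : ℝ => 1 - y) (Icc 0 1) := by fun_prop
    exact contDiffOn_const.sub (h.smooth.comp h5 h4)
  zero := by simp [rfl', h.one]
  one := by simp [rfl', h.zero]
  maps x h0 h1 := by
    have := h.maps (1 - x) (by linarith) (by linarith)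
    constructor
    · unfold rfl'; linarith [this.2]
    · unfold rfl'; linarith [this.1]
  d0 := by
    rw [derivWithin_rfl' h.smooth ⟨le_rfl, zero_le_one⟩, sub_zero]
    exact h.d1
  d1 := by
    rw [derivWithin_rfl' h.smooth ⟨zero_le_one, le_rfl⟩, sub_self]
    exact h.d0

lemma lift_rfl (t : ℝ) : lift (rfl' F) t = - lift F (-t) := by
  unfold lift rfl' logit
  rw [sig_sub]
  ring_nf

lemma liftD_rfl (h : ContDiffOn ℝ 1 F (Icc 0 1)) (t : ℝ) : liftD (rfl' F) t = liftD F (-t) := by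
  unfold liftD
  rw [derivWithin_rfl' h ⟨(Real.sigmoid_pos t).le, (Real.sigmoid_lt_one t).le⟩]
  unfold rfl'
  rw [sig_sub, sub_sub_cancel, ← sig_sub t]
  ring

/-- maps of the line which are tangent to a translation at both ends -/
structure End (H HD : ℝ → ℝ) : Prop where
  der : ∀ t, HasDerivAt H (HD t) t
  cont : Continuous HD
  top : Tendsto HD atTop (𝓝 1)
  bot : Tendsto HD atBot (𝓝 1)
  sub_top : ∃ c, Tendsto (fun t => H t - t) atTop (𝓝 c)
  sub_bot : ∃ c, Tendsto (fun t => H t - t) atBot (𝓝 c)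

lemma Inc.toEnd (h : Inc F) : End (lift F) (liftD F) where
  der := hasDerivAt_lift h.smooth h.maps
  cont := continuous_liftD h.smooth h.maps
  top := h.tendsto_liftD
  bot := by
    have h1 := h.rfl.tendsto_liftD.comp tendsto_neg_atBot_atTop
    refine h1.congr fun t => ?_
    simp only [Function.comp]
    rw [liftD_rfl h.smooth, neg_neg]
  sub_top := h.tendsto_lift_sub
  sub_bot := by
    obtain ⟨c, hc⟩ := h.rfl.tendsto_lift_sub
    refine ⟨-c, (hc.comp tendsto_neg_atBot_atTop).neg.congr fun t => ?_⟩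
    simp only [Function.comp]
    rw [lift_rfl, neg_neg]
    ring

/-- the map in the coordinate `1/t` -/
def inf (H : ℝ → ℝ) (s : ℝ) : ℝ := if s = 0 then 0 else (H s⁻¹)⁻¹

variable {H HD : ℝ → ℝ}

lemma tendsto_mul_inv (h : ∃ c, Tendsto (fun t => H t - t) atTop (𝓝 c)) :
    Tendsto (fun t => t⁻¹ * H t) atTop (𝓝 1) := by
  obtain ⟨c, hc⟩ := h
  have h1 : Tendsto (fun t : ℝ => t⁻¹) atTop (𝓝 0) := tendsto_inv_atTop_zero
  have h2 := (h1.mul hc).add_const 1
  rw [zero_mul, zero_add] at h2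
  refine h2.congr' ?_
  filter_upwards [eventually_gt_atTop 0] with t ht
  field_simp
  ring

lemma tendsto_mul_inv' (h : ∃ c, Tendsto (fun t => H t - t) atBot (𝓝 c)) :
    Tendsto (fun t => t⁻¹ * H t) atBot (𝓝 1) := by
  obtain ⟨c, hc⟩ := h
  have h1 : Tendsto (fun t : ℝ => t⁻¹) atBot (𝓝 0) := tendsto_inv_atBot_zero
  have h2 := (h1.mul hc).add_const 1
  rw [zero_mul, zero_add] at h2
  refine h2.congr' ?_
  filter_upwards [eventually_lt_atBot 0] with t ht
  have ht' := ht.ne
  field_simp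
  ring

lemma End.tendsto_s (h : End H HD) : Tendsto (fun s => s * H s⁻¹) (𝓝[≠] 0) (𝓝 1) := by
  rw [← Iio_union_Ioi, nhdsWithin_union, tendsto_sup]
  constructor
  · have h1 := (tendsto_mul_inv' h.sub_bot).comp tendsto_inv_nhdsLT_zero
    exact h1.congr fun s => by simp [Function.comp]
  · have h1 := (tendsto_mul_inv h.sub_top).comp tendsto_inv_nhdsGT_zero
    exact h1.congr fun s => by simp [Function.comp]

lemma End.tendsto_HD (h : End H HD) : Tendsto (fun s => HD s⁻¹) (𝓝[≠] 0) (𝓝 1) := by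
  rw [← Iio_union_Ioi, nhdsWithin_union, tendsto_sup]
  exact ⟨h.bot.comp tendsto_inv_nhdsLT_zero, h.top.comp tendsto_inv_nhdsGT_zero⟩

/-- the derivative in the coordinate `1/t` -/
def infD (H HD : ℝ → ℝ) (s : ℝ) : ℝ := if s = 0 then 1 else HD s⁻¹ / (s * H s⁻¹) ^ 2

lemma End.contDiffAt (h : End H HD) : ContDiffAt ℝ 1 (inf H) 0 := by
  have h1 : ∀ᶠ s in 𝓝[≠] (0 : ℝ), 0 < s * H s⁻¹ := h.tendsto_s.eventually_const_lt one_pos
  rw [eventually_nhdsWithin_iff] at h1
  obtain ⟨u, hu, huo, h0u⟩ := eventually_nhds_iff.1 h1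
  rw [contDiffAt_one_iff]
  refine ⟨fun s => ContinuousLinearMap.toSpanSingleton ℝ (infD H HD s), u, huo.mem_nhds h0u, ?_, ?_⟩
  · have h2 : ContinuousOn (infD H HD) u := by
      intro s hs
      apply ContinuousAt.continuousWithinAt
      by_cases h0 : s = 0
      · subst h0
        rw [← continuousWithinAt_compl_self]
        have h3 := h.tendsto_HD.div (h.tendsto_s.pow 2) (by norm_num)
        have h4 : infD H HD 0 = 1 / 1 ^ 2 := by simp [infD]
        unfold ContinuousWithinAt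
        rw [h4]
        refine h3.congr' ?_
        filter_upwards [self_mem_nhdsWithin] with s hs
        rw [mem_compl_singleton_iff] at hs
        simp [infD, hs]
      · have h3 : ContinuousAt (fun s => HD s⁻¹ / (s * H s⁻¹) ^ 2) s := by
          have hi : ContinuousAt (fun s : ℝ => s⁻¹) s := continuousAt_inv₀ h0
          have hH : ContinuousAt (fun s : ℝ => H s⁻¹) s :=
            ContinuousAt.comp (g := H) (f := fun s : ℝ => s⁻¹) (h.der s⁻¹).continuousAt hi
          have hD : ContinuousAt (fun s : ℝ => HD s⁻¹) s :=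
            ContinuousAt.comp (g := HD) (f := fun s : ℝ => s⁻¹) h.cont.continuousAt hi
          exact hD.div ((continuousAt_id.mul hH).pow 2) (pow_ne_zero _ (hu s hs h0).ne')
        refine h3.congr ?_
        filter_upwards [isOpen_ne.mem_nhds h0] with s hs
        simp only [infD]
        rw [if_neg hs]
    exact (ContinuousLinearMap.toSpanSingletonCLE (𝕜 := ℝ) (E := ℝ)).continuous.comp_continuousOn h2
  · intro s hs
    change HasFDerivAt (inf H) (ContinuousLinearMap.toSpanSingleton ℝ (infD H HD s)) s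
    apply HasDerivAt.hasFDerivAt
    by_cases h0 : s = 0
    · subst h0
      rw [hasDerivAt_iff_tendsto_slope]
      have h3 := h.tendsto_s.inv₀ one_ne_zero
      have h4 : infD H HD 0 = 1⁻¹ := by simp [infD]
      rw [h4]
      refine h3.congr' ?_
      filter_upwards [self_mem_nhdsWithin] with s hs
      rw [mem_compl_singleton_iff] at hs
      simp only [slope, inf, vsub_eq_sub, sub_zero, smul_eq_mul, hs, if_true, if_false]
      rw [mul_inv]
    · have h2 := hu s hs h0
      have hH0 : H s⁻¹ ≠ 0 := by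
        intro h3; rw [h3, mul_zero] at h2; exact lt_irrefl _ h2
      have h3 : HasDerivAt (fun s : ℝ => (H s⁻¹)⁻¹) (infD H HD s) s := by
        have h4 : HasDerivAt (fun s : ℝ => s⁻¹) (-(s ^ 2)⁻¹) s := hasDerivAt_inv h0
        have h5 : HasDerivAt (fun s : ℝ => H s⁻¹) (HD s⁻¹ * (-(s ^ 2)⁻¹)) s :=
          (h.der s⁻¹).comp s h4
        have h6 := h5.inv hH0
        have h7 : -(HD s⁻¹ * (-(s ^ 2)⁻¹)) / H s⁻¹ ^ 2 = infD H HD s := by
          unfold infD
          rw [if_neg h0]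
          field_simp
        rw [h7] at h6
        exact h6
      refine h3.congr_of_eventuallyEq ?_
      filter_upwards [isOpen_ne.mem_nhds h0] with s hs
      simp only [inf]
      rw [if_neg hs]

end

end Pool.Agent.W2helper25.CK
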