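import Pool.Agent.W2helper25.CK.Ana

/-!
# The circle `ℝ ∪ {∞}` as a manifold modelled on the half line
-/

set_option autoImplicit false

namespace Pool.Agent.W2helper25.CK

open Set Filter Topology WithLp OnePoint
open scoped Manifold Classical

noncomputable section

/-- the line as an open subset of the half line -/
def P : OpenPartialHomeomorph ℝ (EuclideanHalfSpace 1) where
  toFun x := ⟨toLp 2 fun _ => Real.exp x, (Real.exp_pos x).le⟩
  invFun z := Real.log (z.1 0)
  source := univ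
  target := {z | 0 < z.1 0}
  map_source' x _ := Real.exp_pos x
  map_target' _ _ := mem_univ _
  left_inv' x _ := Real.log_exp x
  right_inv' := by
    rintro ⟨z, hz⟩ h
    rw [Subtype.mk_eq_mk]
    ext i
    rw [Subsingleton.elim i 0]
    exact Real.exp_log h
  open_source := isOpen_univ
  open_target := by
    have : IsOpen { z : ℝ | 0 < z } := isOpen_Ioi
    have : IsOpen { z : EuclideanSpace ℝ (Fin 1) | 0 < z 0 } :=
      this.preimage (@PiLp.continuous_apply 2 (Fin 1) (fun _ => ℝ) _ 0)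
    exact this.preimage continuous_subtype_val
  continuousOn_toFun := by
    apply Continuous.continuousOn
    apply Continuous.subtype_mk
    exact (PiLp.continuous_toLp 2 _).comp (continuous_pi fun _ => Real.continuous_exp)
  continuousOn_invFun := by
    apply ContinuousOn.log
    · exact ((@PiLp.continuous_apply 2 (Fin 1) (fun _ => ℝ) _ 0).comp
        continuous_subtype_val).continuousOn
    · intro z hz
      exact (ne_of_gt hz)

/-- the inversion of the circle -/
def invFun : OnePoint ℝ → OnePoint ℝ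
  | ∞ => ((0 : ℝ) : OnePoint ℝ)
  | OnePoint.some x => if x = 0 then ∞ else ((x⁻¹ : ℝ) : OnePoint ℝ)

lemma invFun_infty : invFun ∞ = ((0 : ℝ) : OnePoint ℝ) := rfl

lemma invFun_coe {x : ℝ} (hx : x ≠ 0) : invFun (x : OnePoint ℝ) = ((x⁻¹ : ℝ) : OnePoint ℝ) := by
  show (if x = 0 then ∞ else ((x⁻¹ : ℝ) : OnePoint ℝ)) = _
  rw [if_neg hx]

lemma invFun_zero : invFun ((0 : ℝ) : OnePoint ℝ) = ∞ := by
  show (if (0 : ℝ) = 0 then ∞ else (((0 : ℝ)⁻¹ : ℝ) : OnePoint ℝ)) = _
  rw [if_pos rfl]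

lemma invFun_invFun (x : OnePoint ℝ) : invFun (invFun x) = x := by
  induction x using OnePoint.rec with
  | infty => rw [invFun_infty, invFun_zero]
  | coe x =>
    by_cases hx : x = 0
    · subst hx; rw [invFun_zero, invFun_infty]
    · rw [invFun_coe hx, invFun_coe (inv_ne_zero hx), inv_inv]

lemma continuous_invFun : Continuous invFun := by
  rw [OnePoint.continuous_iff]
  constructor
  · rw [invFun_infty, coclosedCompact_eq_cocompact, cocompact_eq_atBot_atTop, tendsto_sup]
    have h0 : Tendsto ((↑) : ℝ → OnePoint ℝ) (𝓝 0) (𝓝 ((0 : ℝ) : OnePoint ℝ)) :=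
      continuous_coe.tendsto 0
    constructor
    · refine (h0.comp tendsto_inv_atBot_zero).congr' ?_
      filter_upwards [eventually_lt_atBot 0] with x hx
      rw [invFun_coe hx.ne]; rfl
    · refine (h0.comp tendsto_inv_atTop_zero).congr' ?_
      filter_upwards [eventually_gt_atTop 0] with x hx
      rw [invFun_coe hx.ne']; rfl
  · rw [continuous_iff_continuousAt]
    intro x
    by_cases hx : x = 0
    · subst hx
      rw [← continuousWithinAt_compl_self]
      show Tendsto (fun x : ℝ => invFun (x : OnePoint ℝ)) (𝓝[≠] 0)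
        (𝓝 (invFun ((0 : ℝ) : OnePoint ℝ)))
      rw [invFun_zero]
      have h1 : Tendsto (fun x : ℝ => x⁻¹) (𝓝[≠] 0) (coclosedCompact ℝ) := by
        rw [coclosedCompact_eq_cocompact, cocompact_eq_atBot_atTop, ← Iio_union_Ioi,
          nhdsWithin_union]
        exact tendsto_inv_nhdsLT_zero.sup_sup tendsto_inv_nhdsGT_zero
      refine (tendsto_coe_infty.comp h1).congr' ?_
      filter_upwards [self_mem_nhdsWithin] with x hx
      rw [mem_compl_singleton_iff] at hx
      rw [invFun_coe hx]; rfl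
    · have h1 : ContinuousAt (fun x : ℝ => ((x⁻¹ : ℝ) : OnePoint ℝ)) x :=
        continuous_coe.continuousAt.comp (continuousAt_inv₀ hx)
      refine h1.congr ?_
      filter_upwards [isOpen_ne.mem_nhds hx] with y hy
      rw [invFun_coe hy]

/-- the inversion as a homeomorphism -/
def J : OnePoint ℝ ≃ₜ OnePoint ℝ where
  toFun := invFun
  invFun := invFun
  left_inv := invFun_invFun
  right_inv := invFun_invFun
  continuous_toFun := continuous_invFun
  continuous_invFun := continuous_invFun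

/-- the chart on the line -/
def A : OpenPartialHomeomorph (OnePoint ℝ) (EuclideanHalfSpace 1) :=
  (OpenPartialHomeomorph.symm (isOpenEmbedding_coe (X := ℝ)).toOpenPartialHomeomorph).trans P

/-- the chart at infinity -/
def B : OpenPartialHomeomorph (OnePoint ℝ) (EuclideanHalfSpace 1) := J.transOpenPartialHomeomorph A

lemma A_coe (x : ℝ) : A (x : OnePoint ℝ) = P x := by
  have h : (OpenPartialHomeomorph.symm (isOpenEmbedding_coe (X := ℝ)).toOpenPartialHomeomorph)
      (x : OnePoint ℝ) = x :=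
    (isOpenEmbedding_coe (X := ℝ)).toOpenPartialHomeomorph_left_inv
  show P ((OpenPartialHomeomorph.symm (isOpenEmbedding_coe (X := ℝ)).toOpenPartialHomeomorph)
      (x : OnePoint ℝ)) = P x
  rw [h]

lemma A_symm (z : EuclideanHalfSpace 1) : A.symm z = ((Real.log (z.1 0) : ℝ) : OnePoint ℝ) := rfl

lemma A_source : A.source = {∞}ᶜ := by
  rw [compl_infty]
  unfold A
  rw [OpenPartialHomeomorph.trans_source]
  ext x
  simp [P]

lemma A_target : A.target = {z | 0 < z.1 0} := by
  unfold A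
  rw [OpenPartialHomeomorph.trans_target]
  ext x
  simp [P]

lemma B_apply (x : OnePoint ℝ) : B x = A (invFun x) := rfl

lemma B_symm (z : EuclideanHalfSpace 1) :
    B.symm z = invFun ((Real.log (z.1 0) : ℝ) : OnePoint ℝ) := rfl

lemma B_source : B.source = {((0 : ℝ) : OnePoint ℝ)}ᶜ := by
  have h : B.source = invFun ⁻¹' A.source := rfl
  rw [h, A_source]
  ext x
  simp only [mem_preimage, mem_compl_iff, mem_singleton_iff, not_iff_not]
  constructor
  · intro h
    rw [← invFun_invFun x, h, invFun_infty]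
  · rintro rfl
    exact invFun_zero

lemma B_target : B.target = {z | 0 < z.1 0} := by
  have h : B.target = A.target := rfl
  rw [h, A_target]

/-- The circle is a charted space over the half line. -/
instance cs : ChartedSpace (EuclideanHalfSpace 1) (OnePoint ℝ) where
  atlas := {A, B}
  chartAt x := if x = ∞ then B else A
  mem_chart_source x := by
    by_cases hx : x = ∞
    · rw [if_pos hx, B_source, hx]
      exact infty_ne_coe 0
    · rw [if_neg hx, A_source]
      exact hx
  chart_mem_atlas x := by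
    by_cases hx : x = ∞
    · rw [if_pos hx]; exact Or.inr rfl
    · rw [if_neg hx]; exact Or.inl rfl

lemma chartAt_infty : chartAt (EuclideanHalfSpace 1) (∞ : OnePoint ℝ) = B := by
  show (if (∞ : OnePoint ℝ) = ∞ then B else A) = B
  rw [if_pos rfl]

lemma chartAt_coe (x : ℝ) : chartAt (EuclideanHalfSpace 1) (x : OnePoint ℝ) = A := by
  show (if (x : OnePoint ℝ) = ∞ then B else A) = A
  rw [if_neg (coe_ne_infty x)]

/-- the map in the coordinate of the charts -/
def R (h : ℝ → ℝ) (y : EuclideanSpace ℝ (Fin 1)) : EuclideanSpace ℝ (Fin 1) :=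
  toLp 2 fun _ => Real.exp (h (Real.log (y 0)))

lemma contDiffAt_R {n : WithTop ℕ∞} {h : ℝ → ℝ} {y : EuclideanSpace ℝ (Fin 1)} (hy : 0 < y 0)
    (hh : ContDiffAt ℝ n h (Real.log (y 0))) : ContDiffAt ℝ n (R h) y := by
  unfold R
  rw [contDiffAt_piLp]
  intro i
  have h1 : ContDiffAt ℝ n (fun y : EuclideanSpace ℝ (Fin 1) => y 0) y := by fun_prop
  have h2 : ContDiffAt ℝ n (fun y : EuclideanSpace ℝ (Fin 1) => Real.log (y 0)) y :=
    h1.log hy.ne'
  exact (ContDiffAt.comp y hh h2).exp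

lemma symm_coe {y : EuclideanSpace ℝ (Fin 1)} (hy : 0 ≤ y 0) :
    (((𝓡∂ 1).symm y).1 0) = y 0 := by
  rw [modelWithCornersEuclideanHalfSpace_symm_apply]
  simp [hy]

lemma P_val (x : ℝ) : ((P x).1 : EuclideanSpace ℝ (Fin 1)) = toLp 2 fun _ => Real.exp x := rfl

lemma mem_range_iff {y : EuclideanSpace ℝ (Fin 1)} : y ∈ range (𝓡∂ 1) ↔ 0 ≤ y 0 := by
  rw [range_modelWithCornersEuclideanHalfSpace]; rfl

instance mfd : IsManifold (𝓡∂ 1) ((⊤ : ℕ∞) : WithTop ℕ∞) (OnePoint ℝ) := by
  have key : ∀ e : OpenPartialHomeomorph (OnePoint ℝ) (EuclideanHalfSpace 1),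
      ContDiffOn ℝ ((⊤ : ℕ∞) : WithTop ℕ∞) ((𝓡∂ 1) ∘ e.symm ≫ₕ e ∘ (𝓡∂ 1).symm)
        ((𝓡∂ 1).symm ⁻¹' (e.symm ≫ₕ e).source ∩ range (𝓡∂ 1)) := by
    intro e
    refine contDiffOn_id.congr ?_
    rintro y ⟨hy, hy2⟩
    rw [mem_preimage, OpenPartialHomeomorph.trans_source] at hy
    have h1 : e (e.symm ((𝓡∂ 1).symm y)) = (𝓡∂ 1).symm y := e.right_inv hy.1
    show (𝓡∂ 1) (e (e.symm ((𝓡∂ 1).symm y))) = y
    rw [h1]
    exact (𝓡∂ 1).right_inv hy2
  have hAB : ∀ y : EuclideanSpace ℝ (Fin 1), 0 < y 0 → Real.log (y 0) ≠ 0 →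
      ((𝓡∂ 1) (A (invFun ((Real.log (y 0) : ℝ) : OnePoint ℝ)))) = R (fun s => s⁻¹) y := by
    intro y h0 h1
    rw [invFun_coe h1, A_coe]
    rfl
  have key2 : ∀ s : Set (EuclideanSpace ℝ (Fin 1)),
      (∀ y ∈ s, 0 < y 0 ∧ Real.log (y 0) ≠ 0) →
      ContDiffOn ℝ ((⊤ : ℕ∞) : WithTop ℕ∞) (R (fun s => s⁻¹)) s := by
    intro s hs y hy
    exact (contDiffAt_R (hs y hy).1 (contDiffAt_inv ℝ (hs y hy).2)).contDiffWithinAt
  apply isManifold_of_contDiffOn
  rintro e e' (rfl | rfl) (rfl | rfl)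
  · exact key _
  · have h : ∀ y ∈ (𝓡∂ 1).symm ⁻¹' (A.symm ≫ₕ B).source ∩ range (𝓡∂ 1),
        0 < y 0 ∧ Real.log (y 0) ≠ 0 := by
      rintro y ⟨hy, hy2⟩
      rw [mem_range_iff] at hy2
      rw [mem_preimage, OpenPartialHomeomorph.trans_source] at hy
      obtain ⟨hy3, hy4⟩ := hy
      rw [OpenPartialHomeomorph.symm_source, A_target, mem_ofPred_eq, symm_coe hy2] at hy3
      rw [mem_preimage, A_symm, B_source, symm_coe hy2, mem_compl_singleton_iff, Ne,
        OnePoint.coe_eq_coe] at hy4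
      exact ⟨hy3, hy4⟩
    refine (key2 _ h).congr fun y hy => ?_
    rw [← hAB y (h y hy).1 (h y hy).2]
    show (𝓡∂ 1) (A (invFun (((Real.log (((𝓡∂ 1).symm y).1 0) : ℝ) : OnePoint ℝ)))) = _
    rw [symm_coe (h y hy).1.le]
  · have h : ∀ y ∈ (𝓡∂ 1).symm ⁻¹' (B.symm ≫ₕ A).source ∩ range (𝓡∂ 1),
        0 < y 0 ∧ Real.log (y 0) ≠ 0 := by
      rintro y ⟨hy, hy2⟩
      rw [mem_range_iff] at hy2
      rw [mem_preimage, OpenPartialHomeomorph.trans_source] at hy
      obtain ⟨hy3, hy4⟩ := hy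
      rw [OpenPartialHomeomorph.symm_source, B_target, mem_ofPred_eq, symm_coe hy2] at hy3
      rw [mem_preimage, B_symm, A_source, symm_coe hy2, mem_compl_singleton_iff] at hy4
      refine ⟨hy3, fun h0 => hy4 ?_⟩
      rw [h0, invFun_zero]
    refine (key2 _ h).congr fun y hy => ?_
    rw [← hAB y (h y hy).1 (h y hy).2]
    show (𝓡∂ 1) (A (invFun (((Real.log (((𝓡∂ 1).symm y).1 0) : ℝ) : OnePoint ℝ)))) = _
    rw [symm_coe (h y hy).1.le]
  · exact key _

end

end Pool.Agent.W2helper25.CK
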